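import Pool.Agent.TH133.Base

/-!
# Homologically trivial cycles and odd cohomology: definitions
-/

open CategoryTheory AlgebraicGeometry

universe u v w

namespace Pool.Agent.TH26.Odd

open Pool.Agent.H914 Pool.Agent.H914.VarClass Pool.Agent.H914.VarClass.Obj Pool.Agent.W492.BB

variable {k : Type u} [Field k] {𝒱 : VarClass k} {C : TheoryData.{u, v, 0} 𝒱 ℚ} {K : Type w}
  [Field K] (H : WeilTheoryData.{u, v, w} C K)

/-- `H^j(X) = 0`. -/
def Vanishes (X : 𝒱.Obj) (j : ℤ) : Prop :=
  ∀ a : H.A X, H.Deg j a → a = 0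

/-- `H^j(X) = 0` for all odd `j`. -/
def NoOdd (X : 𝒱.Obj) : Prop :=
  ∀ j : ℤ, Odd j → Vanishes H X j

/-- The cycle class map is injective on `CH^m(X)` (rational coefficients). -/
def CycleInjective (X : 𝒱.Obj) (m : ℕ) : Prop :=
  ∀ z : C.A X, C.Deg m z → H.cl z = 0 → z = 0

/-- The statement of the problem: if `m ≥ 1` and `H^(2m-1)(X) = 0`, then homologically trivial
classes in `CH^m(X)` (rational coefficients) are zero. -/
def Question : Prop :=
  ∀ (X : 𝒱.Obj) (m : ℕ), 1 ≤ m → Vanishes H X (2 * m - 1) → CycleInjective H X m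

/-- The statement of the problem for all `X` and `m` with `dim X ≤ 2 m`. -/
def HighCodim : Prop :=
  ∀ (X : 𝒱.Obj) (m : ℕ), 1 ≤ m → X.dim ≤ 2 * m → Vanishes H X (2 * m - 1) → CycleInjective H X m

/-- Homologically trivial classes are zero on all varieties without odd cohomology. -/
def NoOddInjective : Prop :=
  ∀ X : 𝒱.Obj, NoOdd H X → ∀ m : ℕ, 1 ≤ m → CycleInjective H X m

/-- A part of the hard Lefschetz theorem: multiplication by some divisor class is injective on
`H^j(X)` for all `j < dim X`. -/
def HasHardLefschetz : Prop :=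
  ∀ X : 𝒱.Obj, ∃ h : C.A X, C.Deg 1 h ∧
    ∀ (j : ℤ) (a : H.A X), j < X.dim → H.Deg j a → H.cl h * a = 0 → a = 0

/-- The properties which are used of the class `Sec` of the inclusions `Y → X` of the smooth ample
hypersurface sections (geometrically irreducible, of dimension `dim X - 1`) of the varieties `X`:

* `lefschetz`: the hyperplane theorem of Lefschetz, `H^j(X) → H^j(Y)` is surjective for
  `j < dim Y`;
* `bertini`: if `dim X > 2 e + 2`, then each class in `CH_e(X) = CH^(dim X - e)(X)` is the
  push-forward of a class on some `Y`.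

The second property is known for the class of all smooth projective varieties over an algebraically
closed field of characteristic zero: for `2 e < dim X` the group `CH_e(X)` is generated by smooth
subvarieties which can be chosen pairwise disjoint for a given class (Kleiman, Geometry on
Grassmannians and applications to splitting bundles and smoothing cycles), and a general
hypersurface section of large degree containing a smooth closed subscheme of dimension `e` is
smooth if `2 e < dim X` (Altman-Kleiman). -/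
structure IsSections (Sec : ∀ {Y X : 𝒱.Obj}, (Y ⟶ X) → Prop) : Prop where
  dim : ∀ {Y X : 𝒱.Obj} (i : Y ⟶ X), Sec i → Y.dim + 1 = X.dim
  lefschetz : ∀ {Y X : 𝒱.Obj} (i : Y ⟶ X), Sec i → ∀ (j : ℤ) (b : H.A Y), j < Y.dim →
    H.Deg j b → ∃ a : H.A X, H.Deg j a ∧ H.up i a = b
  bertini : ∀ (X : 𝒱.Obj) (e : ℕ) (z : C.A X), 2 * e + 2 < X.dim → C.Deg (X.dim - e) z →
    ∃ (Y : 𝒱.Obj) (i : Y ⟶ X), Sec i ∧ ∃ w : C.A Y, C.Deg (Y.dim - e) w ∧ C.down i w = z

/-- The hyperplane theorem for homologically trivial cycles of small codimension: if `m ≥ 1`,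
`dim X > 2 m`, `H^(2m-1)(X) = 0` and `z` is a homologically trivial class in `CH^m(X)` whose
restrictions to all smooth ample hypersurface sections are zero, then `z = 0`. -/
def ChowLefschetz (Sec : ∀ {Y X : 𝒱.Obj}, (Y ⟶ X) → Prop) : Prop :=
  ∀ (X : 𝒱.Obj) (m : ℕ), 1 ≤ m → 2 * m < X.dim → Vanishes H X (2 * m - 1) →
    ∀ z : C.A X, C.Deg m z → H.cl z = 0 →
      (∀ (Y : 𝒱.Obj) (i : Y ⟶ X), Sec i → C.up i z = 0) → z = 0

end Pool.Agent.TH26.Odd
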