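import Pool.Agent.TH26.Odd.Defs

/-!
# Homologically trivial cycles and odd cohomology
-/

open CategoryTheory AlgebraicGeometry

universe u v w

namespace Pool.Agent.TH26.Odd

open Pool.Agent.H914 Pool.Agent.H914.VarClass Pool.Agent.H914.VarClass.Obj Pool.Agent.W492.BB
  Pool.Agent.TH133

set_option linter.unusedSectionVars false

variable {k : Type u} [Field k] {𝒱 : VarClass k} {C : TheoryData.{u, v, 0} 𝒱 ℚ} {K : Type w}
  [Field K] {H : WeilTheoryData.{u, v, w} C K} [hC : IsChowProj C] [hH : IsWeilProj H]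

include hC hH

/-- Poincare duality. -/
lemma Vanishes.dual {X : 𝒱.Obj} {j : ℤ} (h : Vanishes H X j) : Vanishes H X (2 * X.dim - j) := by
  intro a ha
  apply H.nondeg
  have h0 : (H.tr X ∘ₗ LinearMap.mulLeft K a) = 0 := by
    apply ext_gr H
    intro i b hb
    rw [LinearMap.comp_apply, LinearMap.mulLeft_apply, LinearMap.zero_apply]
    by_cases hi : i = j
    · subst hi
      rw [h b hb, mul_zero, map_zero]
    · exact tr_zero H (H.mul_mem ha hb) (by omega)
  intro b
  exact LinearMap.congr_fun h0 b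

/-- Hard Lefschetz. -/
lemma Vanishes.lower (hL : HasHardLefschetz H) {X : 𝒱.Obj} {j : ℤ} (h : Vanishes H X j)
    (hj : j ≤ X.dim + 1) : Vanishes H X (j - 2) := by
  intro a ha
  obtain ⟨l, hl, hinj⟩ := hL X
  refine hinj (j - 2) a (by omega) ha ?_
  apply h
  have h1 := H.mul_mem (H.cl_mem hl) ha
  have e : (2 * 1 + (j - 2) : ℤ) = j := by ring
  rwa [e] at h1

lemma Vanishes.lower_iterate (hL : HasHardLefschetz H) {X : 𝒱.Obj} {j : ℤ} (h : Vanishes H X j)
    (hj : j ≤ X.dim + 1) (t : ℕ) : Vanishes H X (j - 2 * t) := by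
  induction t with
  | zero => simpa using h
  | succ t ih =>
    have h1 := ih.lower hL (by omega)
    have e : (j - 2 * (t : ℤ) - 2 : ℤ) = j - 2 * ((t + 1 : ℕ) : ℤ) := by push_cast; ring
    rwa [e] at h1

/-- If the dimension `n` is even and `H^(n-1) = 0`, there is no odd cohomology. -/
lemma noOdd_of (hL : HasHardLefschetz H) {X : 𝒱.Obj} (hn : Even (X.dim : ℤ))
    (h : Vanishes H X (X.dim - 1)) : NoOdd H X := by
  have low : ∀ j : ℤ, Odd j → j ≤ X.dim - 1 → Vanishes H X j := by
    intro j hj hle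
    obtain ⟨a, ha⟩ := hn
    obtain ⟨b, hb⟩ := hj
    have h1 := h.lower_iterate hL (by omega) (a - 1 - b).toNat
    have e : ((X.dim : ℤ) - 1 - 2 * (((a - 1 - b).toNat : ℕ) : ℤ)) = j := by
      rw [Int.toNat_of_nonneg (by omega)]; omega
    rwa [e] at h1
  intro j hj
  by_cases hle : j ≤ X.dim - 1
  · exact low j hj hle
  · have hj' : Odd (2 * (X.dim : ℤ) - j) := by
      obtain ⟨b, hb⟩ := hj
      exact ⟨X.dim - b - 1, by omega⟩
    have hne : j ≠ X.dim := by
      intro e
      rw [e] at hj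
      exact (Int.not_even_iff_odd.2 hj) hn
    have h1 := (low _ hj' (by omega)).dual
    have e : (2 * (X.dim : ℤ) - (2 * (X.dim : ℤ) - j)) = j := by ring
    rwa [e] at h1

section line

variable {P : 𝒱.Obj} (hP : P.dim = 1) (hP1 : Vanishes H P 1)

include hP hP1

/-- Kunneth formula for the product with `P`. -/
lemma vanishes_prod {X : 𝒱.Obj} {j : ℤ} (h : Vanishes H X j) (h2 : Vanishes H X (j - 2)) :
    Vanishes H (X.prod P) j := by
  intro c hc
  have hle : Submodule.span K {c | ∃ (l : ℤ) (a : H.A X) (b : H.A P), a ∈ H.gr X l ∧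
      b ∈ H.gr P (j - l) ∧ c = H.pull (fst X P) a * H.pull (snd X P) b} ≤ (⊥ : Submodule K _) := by
    rw [Submodule.span_le]
    rintro c ⟨l, a, b, ha, hb, rfl⟩
    rw [SetLike.mem_coe, Submodule.mem_bot]
    rcases lt_trichotomy (j - l) 0 with h0 | h0 | h0
    · rw [H.gr_neg P _ h0, Submodule.mem_bot] at hb
      rw [hb, map_zero, mul_zero]
    · have : a = 0 := h a (by rwa [show j = l by omega])
      rw [this, map_zero, zero_mul]
    · rcases lt_trichotomy (j - l) 2 with h3 | h3 | h3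
      · have : b = 0 := hP1 b (by rwa [show (1 : ℤ) = j - l by omega])
        rw [this, map_zero, mul_zero]
      · have : a = 0 := h2 a (by rwa [show j - 2 = l by omega])
        rw [this, map_zero, zero_mul]
      · rw [gr_top H (by rw [hP]; push_cast; omega), Submodule.mem_bot] at hb
        rw [hb, map_zero, mul_zero]
  exact (Submodule.mem_bot K).1 (hle (H.kunneth X P j hc))

lemma noOdd_prod {X : 𝒱.Obj} (h : NoOdd H X) : NoOdd H (X.prod P) := by
  intro j hj
  refine vanishes_prod hP hP1 (h j hj) (h (j - 2) ?_)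
  obtain ⟨b, hb⟩ := hj
  exact ⟨b - 1, by omega⟩

omit hP1 in
/-- Exterior product with `P`. -/
lemma injective_of_prod {X : 𝒱.Obj} {m : ℕ} (h : CycleInjective H (X.prod P) m) :
    CycleInjective H X m := by
  intro z hz hcl
  obtain ⟨a, -, ha, -⟩ := exists_deg_one C P
  have h0 : C.pull (fst X P) z = 0 := by
    refine h _ (C.pull_mem _ hz) ?_
    rw [H.cl_pull, hcl, map_zero]
  have h1 := C.proj_left (fst X P) (C.pull (snd X P) a) z
  rw [h0, zero_mul, map_zero, ha, mul_one] at h1
  exact h1.symm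

omit hP1 in
/-- Exterior product with a point of `P`. -/
lemma injective_of_prod_succ {X : 𝒱.Obj} {m : ℕ} (h : CycleInjective H (X.prod P) (m + 1)) :
    CycleInjective H X m := by
  intro z hz hcl
  obtain ⟨a, hag, ha, -⟩ := exists_deg_one C P
  have h0 : C.pull (fst X P) z * C.pull (snd X P) a = 0 := by
    refine h _ ?_ ?_
    · have h2 := C.mul_mem (C.pull_mem (fst X P) hz) (C.pull_mem (snd X P) hag)
      have e : ((m : ℤ) + (P.dim : ℤ)) = ((m + 1 : ℕ) : ℤ) := by rw [hP]; push_cast; ring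
      rwa [e] at h2
    · rw [map_mul, H.cl_pull, hcl, map_zero, zero_mul]
  have h1 := C.proj_left (fst X P) (C.pull (snd X P) a) z
  rw [h0, map_zero, ha, mul_one] at h1
  exact h1.symm

/-- Raising the dimension by two. -/
lemma raise {S : Set ℕ} (hS : ∀ (X : 𝒱.Obj) (m : ℕ), m ∈ S → X.dim + 2 = 2 * m → NoOdd H X →
    CycleInjective H X m) (r : ℕ) : ∀ (X : 𝒱.Obj) (m : ℕ), m + r ∈ S → X.dim + 2 = 2 * m →
    NoOdd H X → CycleInjective H X m := by
  induction r with
  | zero => intro X m hm; exact hS X m hm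
  | succ r ih =>
    intro X m hm hd hX
    have h1 := ih ((X.prod P).prod P) (m + 1) (by rwa [show m + 1 + r = m + (r + 1) by omega])
      (by rw [dim_prod, dim_prod, hP]; omega) (noOdd_prod hP hP1 (noOdd_prod hP hP1 hX))
    exact injective_of_prod hP (injective_of_prod_succ hP h1)

lemma raise_all {S : Set ℕ} (hinf : S.Infinite) (hS : ∀ (X : 𝒱.Obj) (m : ℕ), m ∈ S →
    X.dim + 2 = 2 * m → NoOdd H X → CycleInjective H X m) (X : 𝒱.Obj) (m : ℕ)
    (hd : X.dim + 2 = 2 * m) (hX : NoOdd H X) : CycleInjective H X m := by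
  obtain ⟨s, hs, hms⟩ := hinf.exists_gt m
  exact raise hP hP1 hS (s - m) X m (by rwa [show m + (s - m) = s by omega]) hd hX

end line

section sections

variable {Sec : ∀ {Y X : 𝒱.Obj}, (Y ⟶ X) → Prop} (hSec : IsSections H Sec)

include hSec

/-- The dual form of the hyperplane theorem. -/
lemma push_injective {Y X : 𝒱.Obj} (i : Y ⟶ X) (hi : Sec i) {j : ℤ} (hj : Y.dim < j)
    {b : H.A Y} (hb : b ∈ H.gr Y j) (h : H.push i b = 0) : b = 0 := by
  apply H.nondeg
  have h0 : (H.tr Y ∘ₗ LinearMap.mulLeft K b) = 0 := by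
    apply ext_gr H
    intro l c hc
    rw [LinearMap.comp_apply, LinearMap.mulLeft_apply, LinearMap.zero_apply]
    by_cases hl : j + l = 2 * Y.dim
    · obtain ⟨a, -, ha⟩ := hSec.lefschetz i hi l c (by omega) hc
      have ha' : H.pull i a = c := ha
      rw [← ha', ← H.tr_push i, H.proj_right, h, zero_mul, map_zero]
    · exact tr_zero H (H.mul_mem hb hc) hl
  intro c
  exact LinearMap.congr_fun h0 c

lemma vanishes_section {Y X : 𝒱.Obj} (i : Y ⟶ X) (hi : Sec i) {j : ℤ} (hj : Y.dim < j)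
    (h : Vanishes H X (j + 2)) : Vanishes H Y j := by
  intro b hb
  refine push_injective hSec i hi hj hb ?_
  apply h
  have h1 := H.push_mem i hb
  have e : (j + 2 * ((X.dim : ℤ) - (Y.dim : ℤ))) = j + 2 := by
    have := hSec.dim i hi
    rw [← this]; push_cast; ring
  rwa [e] at h1

lemma vanishes_section' {Y X : 𝒱.Obj} (i : Y ⟶ X) (hi : Sec i) {j : ℤ} (hj : j < Y.dim)
    (h : Vanishes H X j) : Vanishes H Y j := by
  intro b hb
  obtain ⟨a, ha, rfl⟩ := hSec.lefschetz i hi j b hj hb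
  change H.pull i a = 0
  rw [h a ha, map_zero]

/-- Cycles of dimension `e`: from dimension `2 e + δ`, `δ ≥ 2`, to dimension `2 e + 2`. -/
lemma descend (hL : HasHardLefschetz H)
    (h2 : ∀ (X : 𝒱.Obj) (m : ℕ), X.dim + 2 = 2 * m → NoOdd H X → CycleInjective H X m)
    (e δ : ℕ) (hδ : 2 ≤ δ) : ∀ X : 𝒱.Obj, X.dim = 2 * e + δ →
      Vanishes H X (2 * (e + δ : ℕ) - 1) → CycleInjective H X (e + δ) := by
  induction δ, hδ using Nat.le_induction with
  | base =>
    intro X hX hv
    refine h2 X (e + 2) (by omega) (noOdd_of hL ⟨e + 1, by rw [hX]; push_cast; ring⟩ ?_)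
    have h1 := hv.dual
    have e1 : (2 * (X.dim : ℤ) - (2 * ((e + 2 : ℕ) : ℤ) - 1)) = X.dim - 1 := by
      rw [hX]; push_cast; ring
    rwa [e1] at h1
  | succ δ hδ ih =>
    intro X hX hv z hz hcl
    obtain ⟨Y, i, hi, w, hw, rfl⟩ := hSec.bertini X e z (by omega) (by
      have e1 : ((X.dim : ℤ) - e) = ((e + (δ + 1) : ℕ) : ℤ) := by rw [hX]; push_cast; ring
      rw [e1]; exact hz)
    have hdim := hSec.dim i hi
    have hY : Y.dim = 2 * e + δ := by omega
    have hw' : C.Deg ((e + δ : ℕ) : ℤ) w := by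
      have e1 : ((Y.dim : ℤ) - e) = ((e + δ : ℕ) : ℤ) := by rw [hY]; push_cast; ring
      rw [← e1]; exact hw
    have hvY : Vanishes H Y (2 * (e + δ : ℕ) - 1) := by
      refine vanishes_section hSec i hi (by rw [hY]; push_cast; omega) ?_
      have e1 : (2 * ((e + δ : ℕ) : ℤ) - 1 + 2) = 2 * ((e + (δ + 1) : ℕ) : ℤ) - 1 := by
        push_cast; ring
      rwa [e1]
    have hclw : H.cl w = 0 := by
      refine push_injective hSec i hi (j := 2 * (e + δ : ℕ)) (by rw [hY]; push_cast; omega)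
        (H.cl_mem hw') ?_
      rw [← H.cl_push]
      exact hcl
    have hw0 := ih Y hY hvY w hw' hclw
    change C.push i w = 0
    rw [hw0, map_zero]

end sections

section main

variable {P : 𝒱.Obj} (hP : P.dim = 1) (hP1 : Vanishes H P 1) (hL : HasHardLefschetz H)
  {Sec : ∀ {Y X : 𝒱.Obj}, (Y ⟶ X) → Prop} (hSec : IsSections H Sec)

include hP hP1

omit hP1 in
lemma noOdd_of_high' (hP1 : Vanishes H P 1) (h : HighCodim H) (d : ℕ) : ∀ (X : 𝒱.Obj) (m : ℕ),
    1 ≤ m → X.dim ≤ 2 * m + d → NoOdd H X → CycleInjective H X m := by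
  induction d with
  | zero => intro X m hm hd hX; exact h X m hm hd (hX _ ⟨m - 1, by ring⟩)
  | succ d ih =>
    intro X m hm hd hX
    exact injective_of_prod_succ hP (ih (X.prod P) (m + 1) (by omega)
      (by rw [dim_prod, hP]; omega) (noOdd_prod hP hP1 hX))

lemma noOdd_of_high (h : HighCodim H) : NoOddInjective H :=
  fun X hX m hm => noOdd_of_high' hP hP1 h X.dim X m hm (by omega) hX

include hL hSec

lemma high_of_two (h2 : ∀ (X : 𝒱.Obj) (m : ℕ), X.dim + 2 = 2 * m → NoOdd H X →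
    CycleInjective H X m) : HighCodim H := by
  intro X m hm hd hv
  by_cases hlt : X.dim < m
  · intro z hz _
    exact hC.gr_top X m z hz (by exact_mod_cast hlt)
  obtain ⟨e, he⟩ : ∃ e, X.dim = m + e := ⟨X.dim - m, by omega⟩
  have one : ∀ (X : 𝒱.Obj) (m : ℕ), X.dim + 1 = 2 * m → Vanishes H X (2 * m - 1) →
      CycleInjective H X m := by
    intro X m hd hv
    obtain ⟨e, rfl⟩ : ∃ e, m = e + 1 := ⟨m - 1, by omega⟩
    apply injective_of_prod_succ hP
    refine descend hSec hL h2 e 2 le_rfl (X.prod P) (by rw [dim_prod, hP]; omega) ?_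
    have h1 := (hv.lower hL (by omega)).dual
    have e1 : (2 * (X.dim : ℤ) - (2 * ((e + 1 : ℕ) : ℤ) - 1 - 2)) = 2 * ((e + 2 : ℕ) : ℤ) - 1 := by
      have : (X.dim : ℤ) + 1 = 2 * ((e + 1 : ℕ) : ℤ) := by exact_mod_cast hd
      push_cast at this ⊢; linarith
    rw [e1] at h1
    refine vanishes_prod hP hP1 h1 ?_
    have e2 : (2 * ((e + 2 : ℕ) : ℤ) - 1 - 2) = 2 * ((e + 1 : ℕ) : ℤ) - 1 := by push_cast; ring
    rwa [e2]
  rcases Nat.lt_or_ge (X.dim + 1) (2 * m) with h | h
  · obtain ⟨δ, hδ⟩ : ∃ δ, m = e + δ := ⟨m - e, by omega⟩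
    subst hδ
    exact descend hSec hL h2 e δ (by omega) X (by omega) hv
  · rcases Nat.eq_or_lt_of_le h with h | h
    · exact one X m h.symm hv
    · have hX : X.dim = 2 * m := by omega
      apply injective_of_prod_succ hP
      refine one (X.prod P) (m + 1) (by rw [dim_prod, hP]; omega) ?_
      have h1 := hv.dual
      have e1 : (2 * (X.dim : ℤ) - (2 * (m : ℤ) - 1)) = 2 * ((m + 1 : ℕ) : ℤ) - 1 := by
        rw [hX]; push_cast; ring
      rw [e1] at h1
      refine vanishes_prod hP hP1 h1 ?_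
      have e2 : (2 * ((m + 1 : ℕ) : ℤ) - 1 - 2) = 2 * (m : ℤ) - 1 := by push_cast; ring
      rwa [e2]

theorem high_iff : HighCodim H ↔ NoOddInjective H :=
  ⟨noOdd_of_high hP hP1, fun h => high_of_two hP hP1 hL hSec
    fun X m hd hX => h X hX m (by omega)⟩

theorem two_iff {S : Set ℕ} (hS : S.Infinite) : NoOddInjective H ↔
    ∀ (X : 𝒱.Obj) (m : ℕ), m ∈ S → X.dim + 2 = 2 * m → NoOdd H X → CycleInjective H X m :=
  ⟨fun h X m _ hd hX => h X hX m (by omega), fun h => noOdd_of_high hP hP1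
    (high_of_two hP hP1 hL hSec (raise_all hP hP1 hS h))⟩

theorem question_iff : Question H ↔ NoOddInjective H ∧ ChowLefschetz H Sec := by
  constructor
  · intro h
    exact ⟨fun X hX m hm => h X m hm (hX _ ⟨m - 1, by ring⟩),
      fun X m hm _ hv z hz hcl _ => h X m hm hv z hz hcl⟩
  · rintro ⟨h1, h2⟩
    have h3 := (high_iff hP hP1 hL hSec).2 h1
    have key : ∀ (n : ℕ) (X : 𝒱.Obj) (m : ℕ), X.dim = n → 1 ≤ m → Vanishes H X (2 * m - 1) →
        CycleInjective H X m := by
      intro n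
      induction n with
      | zero => intro X m hd hm hv; exact h3 X m hm (by omega) hv
      | succ n ih =>
        intro X m hd hm hv
        by_cases hle : X.dim ≤ 2 * m
        · exact h3 X m hm hle hv
        · intro z hz hcl
          refine h2 X m hm (by omega) hv z hz hcl ?_
          intro Y i hi
          have hdim := hSec.dim i hi
          refine ih Y m (by omega) hm (vanishes_section' hSec i hi (by omega) hv) _
            (C.pull_mem i hz) ?_
          rw [H.cl_pull, hcl, map_zero]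
    intro X m hm hv
    exact key X.dim X m rfl hm hv

end main

end Pool.Agent.TH26.Odd
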